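import Pool.Agent.Helper65.CS.Goals2

/-!
# CS-STE: one step of the algorithm
-/

namespace Pool.Agent.Helper34.CS

open Pool.Agent.Helper65.CS Pool.Agent.Helper78.DT

theorem loss_mono (W b u0 c1 M n N l l' : ℕ) (hn : n ≤ N) (hl : l ≤ l') :
    loss W b u0 c1 M n l ≤ loss W b u0 c1 M N l' := by
  have hn' : (n : ℝ) ≤ N := by exact_mod_cast hn
  have hl' : (l : ℝ) ≤ l' := by exact_mod_cast hl
  unfold loss
  have h1 : (l : ℝ) * ((W : ℝ) * (2 / 2 ^ b)) ^ u0 ≤ (l' : ℝ) * ((W : ℝ) * (2 / 2 ^ b)) ^ u0 :=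
    mul_le_mul_of_nonneg_right hl' (by positivity)
  have h2 : (2 : ℝ) ^ c1 * ((n : ℝ) / M) ≤ 2 ^ c1 * ((N : ℝ) / M) :=
    mul_le_mul_of_nonneg_left (div_le_div_of_nonneg_right hn' (by positivity)) (by positivity)
  linarith

theorem ste (hP : PrgStmt) (hI : InvStmt) (hC : CndStmt) (hA : AlnStmt) (hR : RstStmt) :
    SteStmt := by
  intro k g hg n N W b u0 c1 M F t hInv hM hc1 hb hNM hnN hlen hloss
  have hUpos : (0 : ℝ) < (lg N : ℝ) ^ k := by
    have : (0 : ℝ) < (lg N : ℝ) := by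
      have h2 : 0 < lg N := by
        unfold lg
        omega
      exact_mod_cast h2
    positivity
  have hNF : NF n W t.2 := hInv.2.2.1
  have hg1 := abs_le.1 (hg n W t.2 N hNF)
  rcases hfind : (cands b M n t.1).find?
      (fun e => decide (g (n, t.2, N) ≤ g (n, rst e t.2, N) + 3)) with _ | e
  · -- no candidate
    have hstep : step g b M n N t = t := by
      unfold step
      rw [hfind]
    rw [hstep]
    have hnone := List.find?_eq_none.1 hfind
    have hal : al n t.1 = [] := by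
      by_contra hne
      have hnM : (n : ℝ) / M ≤ (1 / 2 ^ b) ^ (c1 + u0) := by
        refine le_trans (div_le_div_of_nonneg_right ?_ (by positivity)) hNM
        exact_mod_cast hnN
      obtain ⟨e, he, hfe⟩ := hP n W b u0 c1 M t.1 t.2 hNF hM hc1 hb hnM hne
      have hm := loss_mono W b u0 c1 M n N t.2.length N hnN hlen
      have hNF' : NF n W (rst e t.2) := (hR.1 n W e t.2 hNF).1
      have hg2 := abs_le.1 (hg n W (rst e t.2) N hNF')
      have h3 : (g (n, t.2, N) : ℝ) / (lg N : ℝ) ^ k ≤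
          ((g (n, rst e t.2, N) : ℝ) + 3) / (lg N : ℝ) ^ k := by
        have : ((g (n, rst e t.2, N) : ℝ) + 3) / (lg N : ℝ) ^ k =
            (g (n, rst e t.2, N) : ℝ) / (lg N : ℝ) ^ k + 3 * (1 / (lg N : ℝ) ^ k) := by
          ring
        rw [this]
        linarith [hg1.2, hg2.1]
      have h4 : (g (n, t.2, N) : ℝ) ≤ (g (n, rst e t.2, N) : ℝ) + 3 :=
        (div_le_div_iff_of_pos_right hUpos).1 h3
      have h5 : g (n, t.2, N) ≤ g (n, rst e t.2, N) + 3 := by exact_mod_cast h4
      have h6 := hnone e he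
      simp only [decide_eq_true_eq] at h6
      exact h6 h5
    refine ⟨hInv, le_refl _, ?_, ?_⟩
    · have : 0 ≤ 5 / (lg N : ℝ) ^ k := by positivity
      linarith
    · rw [hal]
      simp
  · have hstep : step g b M n N t = (e ++ t.1, rst e t.2) := by
      unfold step
      rw [hfind]
    rw [hstep]
    have hmem : e ∈ cands b M n t.1 := List.mem_of_find?_eq_some hfind
    have hp := List.find?_some hfind
    simp only [decide_eq_true_eq] at hp
    obtain ⟨hnd, hal, h1, hlen2⟩ := (hC b M n t.1).2.2.1 e hmem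
    have hR1 := hR.1 n W e t.2 hNF
    have hg2 := abs_le.1 (hg n W (rst e t.2) N hR1.1)
    refine ⟨hI n W F t e hInv hnd hal, hR1.2, ?_, ?_⟩
    · have h4 : (g (n, t.2, N) : ℝ) ≤ (g (n, rst e t.2, N) : ℝ) + 3 := by exact_mod_cast hp
      have h5 := div_le_div_of_nonneg_right h4 hUpos.le
      have h6 : ((g (n, rst e t.2, N) : ℝ) + 3) / (lg N : ℝ) ^ k =
          (g (n, rst e t.2, N) : ℝ) / (lg N : ℝ) ^ k + 3 * (1 / (lg N : ℝ) ^ k) := by
        ring
      have h7 : 5 / (lg N : ℝ) ^ k = 5 * (1 / (lg N : ℝ) ^ k) := by ring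
      simp only
      rw [h7]
      linarith [hg1.1, hg2.2]
    · have h8 := hA n e t.1 hnd hal
      simp only
      nlinarith

end Pool.Agent.Helper34.CS
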